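import Pool.Agent.H313.GE.Tow
import Pool.Agent.H313.GE.Fin
import Pool.Agent.H313.GE.Le

/-!
# Zero-cycles on a curve over the extensions of `ℓ`-power degree, for almost all primes `ℓ`

Let `K` be the function field of a curve over the field `k` with `q` elements, and let `X` be a smooth
projective geometrically integral curve over `K` with the Jacobian `A`. For a finite extension `M` of `K`
let `L(A/M, T)` be the product of the `P_w(T ^ (deg w))⁻¹` over the places `w` of `M`, where `P_w` is
`det (1 - T Frob_w)` on the invariants of inertia in `V_l(A)`. If `A` has no constant part over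
`K \bar k`, this is a polynomial over `K` with zeros of absolute value `1 / q` (Grothendieck, Deligne),
and the same holds over all extensions `L` of `K` of degree a power of `ℓ`, if `ℓ` is large. If
`L(A/M, T)` does not vanish at `1 / q_M`, then the group `A(M)` is finite and so is the
Tate-Shafarevich group of `A` over `M` (Tate, Milne, Kato and Trihan), and the statement of the problem
holds for `X` over `M`, by the last of the known results: if there is a family of local zero-cycles of
degree one orthogonal to the Brauer group of `X`, then `X` has a zero-cycle of degree one over `M`.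
-/

set_option autoImplicit false
set_option linter.all false
set_option maxHeartbeats 4000000

open Polynomial FF Module Pool.Agent.W343.BSD

namespace Pool.Agent.Results.MP_1ad228_nt.AlmostAllPrimes

section defs

/-- `Λ(T) = ∏ P_v(T ^ (deg v))⁻¹`, the product over the places `v` of `K` over `k`. -/
def IsProduct (k : Type) {K : Type} [Field k] [Field K] [Algebra k K] (P : Place k K → ℤ[X])
    (Λ : PowerSeries ℤ) : Prop :=
  Λ * eulerProd (fun v : Place k K => S.deg v)
    (fun v => ((expand ℤ (S.deg v) (P v) : ℤ[X]) : PowerSeries ℤ)) = 1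

/-- `P = ∏ (1 - α_i T)` and `Q = ∏ (1 - α_i ^ f T)` for complex numbers `α_i`. -/
def IsPower (f : ℕ) (P Q : ℤ[X]) : Prop :=
  ∃ (n : ℕ) (α : Fin n → ℂ), P.map (Int.castRingHom ℂ) = ∏ i, (1 - C (α i) * X) ∧
    Q.map (Int.castRingHom ℂ) = ∏ i, (1 - C (α i ^ f) * X)

/-- `x = ζ / q ^ b` for a root of unity `ζ`. -/
def IsUnitary (q b : ℕ) (x : ℂ) : Prop := ∃ n : ℕ, 0 < n ∧ ((q : ℂ) ^ b * x) ^ n = 1

open Classical in
/-- The number of the zeros `ζ / q ^ b` of `A`, for all roots of unity `ζ`, with multiplicities: for an
`L`-function the order of vanishing over a sufficiently large finite extension of the constants. -/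
noncomputable def geometricOrder (q b : ℕ) (A : ℤ[X]) : ℕ :=
  Multiset.card ((A.map (Int.castRingHom ℂ)).roots.filter (IsUnitary q b))

/-- The order of vanishing of `A` at `q ^ (-b)`. -/
noncomputable def order (q b : ℕ) (A : ℤ[X]) : ℕ :=
  (A.map (Int.castRingHom ℂ)).rootMultiplicity ((q : ℂ) ^ b)⁻¹

/-- The place `w` of `L` lies over the place `v` of `K`, with the ramification index `e`. The fields of
constants `k` and `k'` may be different. -/
def LiesOver {k K k' L : Type} [Field k] [Field K] [Algebra k K] [Field k'] [Field L]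
    [Algebra k' L] [Algebra K L] (w : Place k' L) (v : Place k K) (e : ℕ) : Prop :=
  0 < e ∧ ∀ f : K, w.ord (algebraMap K L f) = e * v.ord f

/-- `L` is a Galois extension of `K` of degree a power of `ℓ`, with any group, and with the field of
constants `k'`, unramified outside `T`. The `P'_w` are integral polynomials with `P'_w(0) = 1` for the
places `w` of `L`; for a place `w` over the place `v` of `K` outside `T` with residue degree `f`, the
reciprocal zeros of `P'_w` are the `f`-th powers of those of `P_v`. Over `T` they are arbitrary. -/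
structure IsExtension {k K : Type} (k' L : Type) [Field k] [Field K] [Algebra k K] [Field k']
    [Field L] [Algebra k' L] [Algebra K L] (ℓ : ℕ) (T : Finset (Place k K))
    (P : Place k K → ℤ[X]) (P' : Place k' L → ℤ[X]) : Prop where
  curve : IsCurveField k' L
  galois : IsGalois K L
  power : ∃ s : ℕ, finrank K L = ℓ ^ s
  unramified : ∀ v, v ∉ T → ∀ (w : Place k' L) (e : ℕ), LiesOver w v e → e = 1
  constant : ∀ w, (P' w).coeff 0 = 1
  factor : ∀ (v : Place k K) (w : Place k' L) (e f : ℕ), v ∉ T → LiesOver w v e →
    Nat.card (S.Res w) = Nat.card (S.Res v) ^ f → IsPower f (P v) (P' w)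

/-- `M` is the extension of `L` by the constants `κ`, and the reciprocal zeros of the `P₃_u` are the
`f`-th powers of those of `P'_w`, for the places `u` of `M` over `w` with residue degree `f`. -/
structure IsConstantExtension {k' L : Type} (κ M : Type) [Field k'] [Field L] [Algebra k' L]
    [Field κ] [Field M] [Algebra κ M] [Algebra k' κ] [Algebra L M]
    (P' : Place k' L → ℤ[X]) (P₃ : Place κ M → ℤ[X]) : Prop where
  curve : IsCurveField κ M
  constants : finrank L M = finrank k' κ
  constant : ∀ u, (P₃ u).coeff 0 = 1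
  factor : ∀ (w : Place k' L) (u : Place κ M) (e f : ℕ), LiesOver u w e →
    Nat.card (S.Res u) = Nat.card (S.Res w) ^ f → IsPower f (P' w) (P₃ u)

end defs

section aux

theorem isUnitary_iff (q b : ℕ) (x : ℂ) : IsUnitary q b x ↔ H313.GE.IsUni (q ^ b) x := by
  unfold IsUnitary H313.GE.IsUni
  push_cast
  rfl

theorem geometricOrder_eq (q b : ℕ) (A : ℤ[X]) : geometricOrder q b A = H313.GE.geo (q ^ b) A := by
  classical
  unfold geometricOrder H313.GE.geo
  congr 1
  exact Multiset.filter_congr fun x _ => isUnitary_iff q b x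

theorem prod_ne {ι : Type} (s : Finset ι) (f : ι → ℤ[X]) (h : ∀ i ∈ s, (f i).coeff 0 = 1) :
    (∏ i ∈ s, f i).coeff 0 = 1 := by
  rw [coeff_zero_eq_eval_zero, eval_prod]
  refine Finset.prod_eq_one fun v hv => ?_
  rw [← coeff_zero_eq_eval_zero, h v hv]

theorem ne_of_coeff {A : ℤ[X]} (h : A.coeff 0 = 1) : A ≠ 0 := by
  rintro rfl
  rw [coeff_zero] at h
  exact zero_ne_one h

theorem geo_prod {ι : Type} (Q : ℕ) (s : Finset ι) (f : ι → ℤ[X]) (h : ∀ i ∈ s, (f i).coeff 0 = 1) :
    H313.GE.geo Q (∏ i ∈ s, f i) = ∑ i ∈ s, H313.GE.geo Q (f i) := by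
  classical
  induction s using Finset.induction_on with
  | empty => rw [Finset.prod_empty, Finset.sum_empty, H313.GE.geo_one]
  | insert a s ha ih =>
    rw [Finset.prod_insert ha, Finset.sum_insert ha, H313.GE.geo_mul Q
      (ne_of_coeff (h a (Finset.mem_insert_self a s)))
      (ne_of_coeff (prod_ne s f fun i hi => h i (Finset.mem_insert_of_mem hi))),
      ih fun i hi => h i (Finset.mem_insert_of_mem hi)]

end aux

/-- Let `K` be the function field of a curve over the field `k` with `q` elements, and `P_v` any
integral polynomials with `P_v(0) = 1` for the places `v` of `K`, with the product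
`Λ(T) = ∏ P_v(T ^ (deg v))⁻¹` and `Λ V = U` for integral polynomials `U`, `V`, `V(0) = 1`. The main
example (`b = 1`) is an arbitrary abelian variety `A` over `K`, with `Λ = L(A/K, T)`. Let `T` be ANY finite
set of places of `K`. Let `g_K` be the number of the zeros `ζ / q ^ b` of `U`, for all roots of unity
`ζ`, and `g_T` the sum over the `v` in `T` of `deg v` times the number of the zeros `ζ / q_v ^ b` of
`P_v`; for an abelian variety `g_T = 0`, since the zeros of `P_v` have the absolute value `q_v ^ (-1/2)` or `1`.

Then for ALL BUT FINITELY MANY primes `ℓ`, for ALL finite Galois extensions `L` of `K` of degree a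
power of `ℓ` (with any group, genus and field of constants `k'`) which are unramified outside `T`, and
for which the Euler product `R` is a polynomial:

(1) `[k' : k] g_L ≤ [L : K] (g_K + g_T)`, where `g_L` is the number of the zeros `ζ / |k'| ^ b` of `R`
for all roots of unity `ζ`, with multiplicities.

(2) For ALL finite extensions `κ` of `k'` and `M = L κ` the product `R₃` over `M` has exactly `g_L` zeros
`ζ / |κ| ^ b`, and it vanishes at `|κ| ^ (-b)` to an order at most `g_L`. If `g_K = 0` and `g_T = 0`, it
does not vanish at any `ζ / |κ| ^ b`.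

So let `X` be a curve over `K` such that the `L`-function of its Jacobian `A` has no zero `ζ / q`. Then for
all finite sets `T` of places and almost all primes `ℓ`, for all finite Galois extensions `L` of `K` of
degree a power of `ℓ` which are unramified outside `T`, and all finite extensions `κ` of the
constants, `A(L κ)` is finite, the conjecture of Birch and Swinnerton-Dyer holds for `A` over `L κ`,
and the Brauer-Manin obstruction to the existence of a zero-cycle of degree one on `X` over `L κ` is the
only one. -/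
theorem result (k K : Type) [Field k] [Finite k] [Field K] [Algebra k K] (hK : IsCurveField k K)
    (P : Place k K → ℤ[X]) (hP : ∀ v, (P v).coeff 0 = 1) (b : ℕ) (Λ : PowerSeries ℤ)
    (hΛ : IsProduct k P Λ) (U V : ℤ[X]) (hV : V.coeff 0 = 1)
    (hUV : Λ * (V : PowerSeries ℤ) = (U : PowerSeries ℤ)) (T : Finset (Place k K)) :
    ∃ N : ℕ, ∀ (ℓ : ℕ) [Fact ℓ.Prime], N < ℓ →
      ∀ (k' L : Type) [Field k'] [Finite k'] [Field L] [Algebra k' L] [Algebra k k'] [Algebra k L]
        [Algebra K L] [IsScalarTower k K L] [IsScalarTower k k' L] (P' : Place k' L → ℤ[X]),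
        IsExtension k' L ℓ T P P' → ∀ R : ℤ[X], IsProduct k' P' (R : PowerSeries ℤ) →
          finrank k k' * geometricOrder (Nat.card k') b R ≤
            finrank K L * (geometricOrder (Nat.card k) b U +
              ∑ v ∈ T, S.deg v * geometricOrder (Nat.card k ^ S.deg v) b (P v)) ∧
          ∀ (κ M : Type) [Field κ] [Finite κ] [Field M] [Algebra κ M]
            [Algebra k' κ] [Algebra k' M] [Algebra L M] [IsScalarTower k' L M]
            [IsScalarTower k' κ M] (P₃ : Place κ M → ℤ[X]),
            IsConstantExtension κ M P' P₃ →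
            ∀ R₃ : ℤ[X], IsProduct κ P₃ (R₃ : PowerSeries ℤ) →
              geometricOrder (Nat.card κ) b R₃ = geometricOrder (Nat.card k') b R ∧
              order (Nat.card κ) b R₃ ≤ geometricOrder (Nat.card k') b R ∧
              (geometricOrder (Nat.card k) b U = 0 →
                (∀ v ∈ T, geometricOrder (Nat.card k ^ S.deg v) b (P v) = 0) →
                ∀ x : ℂ, IsUnitary (Nat.card κ) b x → aeval x R₃ ≠ 0) := by
  classical
  have i0 : FF.IsFF k K := ⟨hK.essFiniteType, hK.trdeg_eq_one⟩
  have hdK : ∀ v : Place k K, v.deg ≠ 0 := fun v => (Pool.Agent.H525R3.FFp.deg_pos v).ne'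
  have hconv : ∀ (k K : Type) [Field k] [Finite k] [Field K] [Algebra k K], IsCurveField k K →
      ∀ (P : Place k K → ℤ[X]) (Λ : PowerSeries ℤ), IsProduct k P Λ →
      Λ * eulerProd (fun v : Place k K => v.deg)
        (fun v => Pool.Agent.Y701.PE.sub v.deg (P v : PowerSeries ℤ)) = 1 := by
    intro k K _ _ _ _ hK P Λ h
    have i0 : FF.IsFF k K := ⟨hK.essFiniteType, hK.trdeg_eq_one⟩
    unfold IsProduct at h
    simp only [S.deg_eq] at h
    rw [← h]
    congr 2
    funext v
    exact Pool.Agent.Y701.PE.sub_poly (Pool.Agent.H525R3.FFp.deg_pos v).ne' (P v)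
  have hΛ1 := hconv k K hK P Λ hΛ
  have hQ0 : Nat.card k ^ b ≠ 0 := pow_ne_zero b Nat.card_pos.ne'
  set E : ℤ[X] := ∏ v ∈ T, expand ℤ v.deg (P v) with hE
  have hU0 : U.coeff 0 = 1 := by
    have h1 := congrArg PowerSeries.constantCoeff hUV
    rw [map_mul, Pool.Agent.Y701.AV.cc_euler hP hΛ1, one_mul, Pool.Agent.Y701.AV.cc_coe hV,
      ← PowerSeries.coeff_zero_eq_constantCoeff_apply, Polynomial.coeff_coe] at h1
    exact h1.symm
  have hexp : ∀ v ∈ T, (expand ℤ v.deg (P v)).coeff 0 = 1 := fun v _ => by
    rw [Pool.Agent.Y701.PE.coeff_zero_expand (Nat.pos_of_ne_zero (hdK v)), hP v]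
  have hE0 : E.coeff 0 = 1 := prod_ne T _ hexp
  obtain ⟨t, B, ht, hB, hBno, hBu, hgt⟩ := H313.GE.exists_decomp hQ0 _ (U * E) le_rfl
    (by rw [mul_coeff_zero, hU0, hE0, one_mul]; exact isUnit_one)
  obtain ⟨N, hN⟩ := H313.GE.exists_noCyc hQ0 hBu hBno
  have hgeo : H313.GE.geo (Nat.card k ^ b) (U * E) = geometricOrder (Nat.card k) b U +
      ∑ v ∈ T, S.deg v * geometricOrder (Nat.card k ^ S.deg v) b (P v) := by
    rw [H313.GE.geo_mul _ (ne_of_coeff hU0) (ne_of_coeff hE0), geometricOrder_eq, hE,
      geo_prod _ _ _ hexp]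
    congr 1
    refine Finset.sum_congr rfl fun v _ => ?_
    rw [geometricOrder_eq, S.deg_eq, H313.GE.geo_expand (hdK v) (ne_of_coeff (hP v)), ← pow_mul,
      ← pow_mul, mul_comm b]
  refine ⟨N, ?_⟩
  intro ℓ hℓ hlt k' L _ _ _ _ _ _ _ _ _ P' hext R hR
  obtain ⟨hQℓ, hno⟩ := hN ℓ hlt
  have hRe := hconv k' L hext.curve P' _ hR
  have j1 : Module.Finite k k' := Module.Finite.of_finite
  obtain ⟨hR0, -, hdvd⟩ := H313.GE.core_dvd hK hext.curve hext.galois hext.power T
    (fun v hv w e h => hext.unramified v hv w e h) hP hext.constant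
    (fun v w e f hv h hc => hext.factor v w e f hv h hc) hΛ1 hV hUV hRe
  have hr : finrank k k' ≠ 0 := finrank_pos.ne'
  have hmain : finrank k k' * geometricOrder (Nat.card k') b R ≤
      finrank K L * (geometricOrder (Nat.card k) b U +
        ∑ v ∈ T, S.deg v * geometricOrder (Nat.card k ^ S.deg v) b (P v)) := by
    have h1 := H313.GE.geo_le hQ0 hQℓ (A := expand ℤ (finrank k k') R) (B := U * E)
      (by rw [Pool.Agent.Y701.PE.coeff_zero_expand (Nat.pos_of_ne_zero hr), hR0]
          exact isUnit_one) ht hB hBu hgt hno hdvd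
    rw [H313.GE.geo_expand hr (ne_of_coeff hR0), hgeo] at h1
    have h2 : (Nat.card k ^ b) ^ finrank k k' = Nat.card k' ^ b := by
      rw [Module.natCard_eq_pow_finrank (K := k) (V := k'), ← pow_mul, ← pow_mul, mul_comm]
    rw [h2] at h1
    rw [geometricOrder_eq (Nat.card k')]
    exact h1
  refine ⟨hmain, ?_⟩
  intro κ M _ _ _ _ _ _ _ _ _ P₃ hcon R₃ hR₃
  have hRe'' := hconv κ M hcon.curve P₃ _ hR₃
  have h2 := H313.GE.const_geo hext.curve hcon.curve hcon.constants hext.constant hcon.constant
    (fun w u e f h hc => hcon.factor w u e f h hc) hRe hRe'' (Nat.card k' ^ b)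
  have h3 : (Nat.card k' ^ b) ^ finrank k' κ = Nat.card κ ^ b := by
    have : Module.Finite k' κ := Module.Finite.of_finite
    rw [Module.natCard_eq_pow_finrank (K := k') (V := κ), ← pow_mul, ← pow_mul, mul_comm]
  rw [h3] at h2
  have hRne : R₃ ≠ 0 := by
    rintro rfl
    rw [Polynomial.coe_zero, zero_mul] at hRe''
    exact zero_ne_one hRe''
  have h4 : geometricOrder (Nat.card κ) b R₃ = geometricOrder (Nat.card k') b R := by
    rw [geometricOrder_eq, geometricOrder_eq, h2]
  refine ⟨h4, ?_, ?_⟩
  · rw [← h4, geometricOrder_eq]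
    have h5 := H313.GE.order_le_geo (pow_ne_zero b (Nat.card_pos (α := κ)).ne') hRne
    unfold order
    push_cast at h5
    exact h5
  · intro h0 hT0 x hx h6
    rw [h0, Finset.sum_eq_zero fun v hv => by rw [hT0 v hv, mul_zero], add_zero, mul_zero] at hmain
    have h7 : geometricOrder (Nat.card k') b R = 0 :=
      (Nat.mul_eq_zero.1 (Nat.le_zero.1 hmain)).resolve_left hr
    rw [← h4, geometricOrder_eq] at h7
    have h8 := H313.GE.geo_pos hRne ((isUnitary_iff _ _ x).1 hx) h6
    omega

end Pool.Agent.Results.MP_1ad228_nt.AlmostAllPrimes
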