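import Pool.Agent.X292.CZ.Main

/-!
# Zero-cycles of degree one on 100% of the cubic hypersurfaces over `F_q(t)`

Let `F` be a finite field and `n ≥ 3` (cubic surfaces are included). Among the cubic hypersurfaces
`f = 0` in `ℙⁿ`, with cubic forms over `F[t]` with coefficients of degree less than `A`, which have
zero-cycles of degree one over all the completions of `F(t)`, a proportion tending to `1` as `A → ∞`
has an `F(t)`-rational point, in particular a zero-cycle of degree one over `F(t)`.

The closed points may have inseparable residue fields, and the characteristic is arbitrary (`2` and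
`3` are allowed). The local part is the analogue in positive characteristic of a theorem of Coray:
over the completions, cubic forms with a nontrivial zero in a finite extension (separable or not) of
degree prime to three have a nontrivial zero. The global part is the starting result
`RandomFanoFunctionField`; the theorem is the analogue over `F_q(t)` of the starting result
`CubicZeroCycles` over `ℚ`.
-/

set_option autoImplicit false

namespace Pool.Agent.Results.MP_1ad228_nt.CubicZeroCyclesFunctionField

open Polynomial IsDedekindDomain

/-- The cubic forms in `n + 1` variables over `F[t]` all of whose coefficients have degree less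
than `A`. -/
def Forms (F : Type) [Field F] (n A : ℕ) : Set (MvPolynomial (Fin (n + 1)) F[X]) :=
  {f | f.IsHomogeneous 3 ∧ ∀ m, (f.coeff m).degree < A}

/-- The embedding of `F[t]` in the completion `F((u))`, `u = 1 / t`, of `F(t)` at infinity:
`t` goes to the inverse of `u`. -/
noncomputable def toInfty (F : Type) [Field F] : F[X] →+* LaurentSeries F :=
  (Polynomial.aeval (HahnSeries.single (-1 : ℤ) (1 : F)) : F[X] →ₐ[F] LaurentSeries F).toRingHom

/-- The hypersurface `f = 0` in `ℙⁿ` has a point over `F(t)`. -/
def HasRationalPoint {F : Type} [Field F] {n : ℕ} (f : MvPolynomial (Fin (n + 1)) F[X]) : Prop :=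
  ∃ x : Fin (n + 1) → RatFunc F, x ≠ 0 ∧ MvPolynomial.aeval x f = 0

/-- The hypersurface `f = 0` in `ℙⁿ` has a zero-cycle of degree one over the extension `K` of `F[t]`
given by `φ`: there are finitely many finite extensions `L i` of `K` over which it has a point, and
integers `m i` with `∑ m i * [L i : K] = 1`. (A point over `L i` is a closed point together with an
embedding of its residue field in `L i`, so this says that the degrees of the closed points have
greatest common divisor one.) -/
def HasZeroCycleOfDegreeOne {F : Type} [Field F] {n : ℕ} (f : MvPolynomial (Fin (n + 1)) F[X])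
    {K : Type} [Field K] (φ : F[X] →+* K) : Prop :=
  ∃ (s : ℕ) (L : Fin s → Type) (_ : ∀ i, Field (L i)) (_ : ∀ i, Algebra K (L i)) (m : Fin s → ℤ),
    (∀ i, FiniteDimensional K (L i)) ∧
    (∀ i, ∃ x : Fin (n + 1) → L i, x ≠ 0 ∧
      MvPolynomial.eval₂ ((algebraMap K (L i)).comp φ) x f = 0) ∧
    ∑ i, m i * (Module.finrank K (L i) : ℤ) = 1

/-- The hypersurface `f = 0` has zero-cycles of degree one over all the completions of `F(t)`: at
the maximal ideals `v` of `F[t]` and at infinity. -/
def HasLocalZeroCycles {F : Type} [Field F] {n : ℕ} (f : MvPolynomial (Fin (n + 1)) F[X]) : Prop :=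
  (∀ v : HeightOneSpectrum F[X],
    HasZeroCycleOfDegreeOne f (algebraMap F[X] (v.adicCompletion (RatFunc F)))) ∧
  HasZeroCycleOfDegreeOne f (toInfty F)

/-- For every finite field `F` and `n ≥ 3`, the number of cubic forms in `n + 1` variables over
`F[t]` with coefficients of degree `< A` which have a nontrivial zero over `F(t)`, divided by the
number of those whose hypersurfaces have zero-cycles of degree one over all completions of `F(t)`,
tends to `1` as `A` grows. -/
theorem result (F : Type) [Field F] [Finite F] (n : ℕ) (hn : 3 ≤ n) :
    Filter.Tendsto (fun A : ℕ =>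
      (({f ∈ Forms F n A | HasRationalPoint f} : Set _).ncard : ℝ) /
      (({f ∈ Forms F n A | HasLocalZeroCycles f} : Set _).ncard : ℝ))
      Filter.atTop (nhds 1) :=
  Pool.Agent.X292.CZ.main F n hn

end Pool.Agent.Results.MP_1ad228_nt.CubicZeroCyclesFunctionField
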