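import Pool.Agent.X261.MB.Gam

/-!
Kummer towers of superelliptic curves over `k(t)` whose Jacobians have rank `m (q - 1)` in all layers
and trivial `p`-primary part of the Tate-Shafarevich group. The definitions of the Jacobian, of the
statement of the Tate conjecture and of the triviality of the Tate-Shafarevich group are in
`Pool.Agent.Y160.SL.Jac`, `IsBasisAt` is in `Pool.Agent.Y160.SL.Fam`.
-/

set_option autoImplicit false

open Polynomial IsDedekindDomain
open scoped Classical

namespace Pool.Agent.Results.MP_1ad228_nt.KummerLayersSplitPrimes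

open Pool.Agent.TH115.GD (IsTower)
open Pool.Agent.Y160.SL (Jac TateAt ShaTriv IsBasisAt)

section defs

variable {k : Type} [Field k]

/-- Conditions for `f` in `k[x]`, for `b` and the prime `P` in `k[t]` and for the polynomials `g_i` in
`k[t][x]`: `f` is monic, irreducible and separable of degree `n` prime to `p`; the primes dividing `b` are
inert in the cover `t = f(x)` of the line; `P` does not divide `b` and `P(0)` divided by the leading
coefficient of `P` is no `p`-th power in `k`; `b ^ n (f(x / b) - t) - P` is the product of the monic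
polynomials `g_i`, which have degree prime to `p` and are irreducible and different modulo `P`. -/
structure IsSplitPrime (p : ℕ) (f b P : k[X]) {r : ℕ} (g : Fin r → k[X][X]) : Prop where
  monic : f.Monic
  irreducible : Irreducible f
  separable : f.Separable
  coprime : p.Coprime f.natDegree
  ne_zero : b ≠ 0
  inert : ∀ Q : k[X], Irreducible Q → Q ∣ b → Irreducible (Q.comp f)
  prime : Irreducible P
  not_dvd : ¬ P ∣ b
  not_pow : ∀ v : k, P.eval 0 ≠ v ^ p * P.leadingCoeff
  eq : (f.map C - C X).scaleRoots b = C P + ∏ i, g i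
  fac_monic : ∀ i, (g i).Monic
  fac_coprime : ∀ i, p.Coprime (g i).natDegree
  fac_irreducible : ∀ i, Irreducible ((g i).map (AdjoinRoot.mk P))
  distinct : ∀ i i', i ≠ i' → (g i).map (AdjoinRoot.mk P) ≠ (g i').map (AdjoinRoot.mk P)

/-- The polynomial `D(t ^ N) ^ n (f(x / D(t ^ N)) - t ^ N)` in `x` over `K = k(t)`, where `n` is the
degree of `f`. -/
noncomputable def kummerTwist (K : Type) [Field K] [Algebra k[X] K] (f D : k[X]) (N : ℕ) : K[X] :=
  ((f.map C - C (X ^ N)).scaleRoots (expand k N D)).map (algebraMap k[X] K)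

/-- The conclusions: the Tate conjecture at `p` for the surface `w ^ q = G(x)` over the projective line,
`Ш(J / K)[p ^ ∞] = 0` for the Jacobian `J` of its generic fibre over `K`, and a basis of `J(K)` at `p`
with `r (q - 1)` elements. -/
def Holds (p q r : ℕ) (k k' F : Type) {K : Type} [Field k] [Field k'] [Field K] [Field F]
    [Algebra K F] [Algebra k[X] K] [IsFractionRing k[X] K] [Algebra k'[X] F]
    [IsFractionRing k'[X] F] (G : K[X]) : Prop :=
  TateAt (F := F) p q k' G ∧ ShaTriv p q k[X] G ∧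
    ∃ b : Fin (r * (q - 1)) → Jac q G K, IsBasisAt p b

/-- The polynomial `x ^ (2 m) + α x ^ m + γ`. -/
noncomputable def base (m : ℕ) (α γ : k) : k[X] := X ^ (2 * m) + C α * X ^ m + C γ

/-- The polynomial `P = a ^ (2 m) + α a ^ m b ^ m + b ^ (2 m) (γ - t)`. -/
noncomputable def prm (m : ℕ) (α γ : k) (a b : k[X]) : k[X] :=
  a ^ (2 * m) + C α * (a ^ m * b ^ m) + b ^ (2 * m) * (C γ - X)

/-- The polynomials `x - ξ ^ i a` for `i < m` and `x ^ m + a ^ m + α b ^ m`. -/
noncomputable def fac (m : ℕ) (α ξ : k) (a b : k[X]) (i : Fin (m + 1)) : k[X][X] :=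
  if (i : ℕ) < m then X - C (C (ξ ^ (i : ℕ)) * a) else X ^ m + C (a ^ m + C α * b ^ m)

/-- Conditions for `a` and `b` in `k[t]`: `f = x ^ (2 m) + α x ^ m + γ` and `P` are irreducible, the primes
dividing `b` are inert in the cover `t = f(x)`, and conditions for the values of `P` at `0` and at `γ`. -/
structure IsGoodPair (p m : ℕ) (α γ ξ : k) (a b : k[X]) : Prop where
  one_lt : 1 < m
  root : IsPrimitiveRoot ξ m
  irreducible : Irreducible (base m α γ)
  separable : (base m α γ).Separable
  coprime : IsCoprime a b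
  ne_zero : b ≠ 0
  inert : ∀ Q : k[X], Irreducible Q → Q ∣ b → Irreducible (Q.comp (base m α γ))
  prime : Irreducible (prm m α γ a b)
  at_zero : ∀ v : k, (prm m α γ a b).eval 0 ≠ v ^ p * (prm m α γ a b).leadingCoeff
  at_gamma : ∀ l : ℕ, l.Prime → l ∣ m → ∀ v : k,
    (prm m α γ a b).eval γ ≠ v ^ l * (prm m α γ a b).leadingCoeff

end defs

theorem holds_of {k k' K F : Type} [Field k] [Field k'] [Field K] [Field F] [Algebra K F]
    [Algebra k[X] K] [IsFractionRing k[X] K] [Algebra k'[X] F] [IsFractionRing k'[X] F]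
    {p q r : ℕ} {G : K[X]} (h : Pool.Agent.Y160.SL.Concl p q r k k' F G) :
    Holds p q r k k' F G := by
  obtain ⟨D, hD1, hD2⟩ := h.basis
  let e : Fin (r * (q - 1)) ≃ Fin r × Fin (q - 1) := finProdFinEquiv.symm
  refine ⟨h.tate, h.sha, fun i => D (e i), hD1.comp _ e.injective, fun n x => ?_⟩
  obtain ⟨y, hy⟩ := hD2 n x
  refine ⟨y, ?_⟩
  have e1 : Set.range (fun i => D (e i)) = Set.range D := e.surjective.range_comp D
  rw [e1]
  exact hy

theorem split_of {k : Type} [Field k] {p m : ℕ} {α γ ξ : k} {a b : k[X]}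
    (hcop : p.Coprime (2 * m)) (h : IsGoodPair p m α γ ξ a b) :
    IsSplitPrime p (base m α γ) b (prm m α γ a b) (fac m α ξ a b) := by
  have hm : 0 < m := by
    have := h.one_lt
    omega
  have hP : Irreducible (Pool.Agent.X261.MB.PG m α γ a b) := h.prime
  have h0 : (Pool.Agent.X261.MB.PG m α γ a b).eval γ ≠ 0 := by
    intro h1
    obtain ⟨l, hl, hlm⟩ := Nat.exists_prime_and_dvd h.one_lt.ne'
    refine h.at_gamma l hl hlm 0 ?_
    rw [zero_pow hl.ne_zero, zero_mul]
    exact h1
  refine ⟨Pool.Agent.X261.MB.fG_monic hm α γ, h.irreducible, h.separable, ?_, h.ne_zero, h.inert,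
    hP, (Pool.Agent.X261.MB.PG_dvd h.coprime hP hm h0).1, h.at_zero,
    Pool.Agent.X261.MB.fac_G hm h.root, fun i => Pool.Agent.X261.MB.gB_monic hm i, fun i => ?_,
    fun i => Pool.Agent.X261.MB.gG_irr hm h.root h.coprime hP h.at_gamma h0 i,
    fun i i' hne => Pool.Agent.X261.MB.gG_ne h.one_lt h.root h.coprime hP h0 hne⟩
  · have h1 : (base m α γ).natDegree = 2 * m := Pool.Agent.X261.MB.fG_deg hm α γ
    rw [h1]
    exact hcop
  · unfold fac
    split_ifs
    · rw [natDegree_X_sub_C]
      exact Nat.coprime_one_right p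
    · rw [natDegree_X_pow_add_C]
      exact hcop.coprime_mul_left_right

theorem good7 {k : Type} [Field k] [Finite k] {r : ℕ} (hr : Nat.card k = 7 ^ r)
    (h30 : r.Coprime 30) : IsGoodPair 3 2 (1 : k) (-1) (-1) (X + 2) X := by
  have := Pool.Agent.X261.MS.charP7 hr
  have h7 : (7 : k) = 0 := by
    have := CharP.cast_eq_zero k 7
    exact_mod_cast this
  have ho : Odd r := Nat.coprime_two_right.1 (Nat.Coprime.coprime_dvd_right (by norm_num) h30)
  have h3 : r.Coprime 3 := Nat.Coprime.coprime_dvd_right (by norm_num) h30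
  have h5 : r.Coprime 5 := Nat.Coprime.coprime_dvd_right (by norm_num) h30
  have h2 : (2 : k) ≠ 0 := by
    intro h0
    have h1 : (1 : k) = 0 := by linear_combination h7 - 3 * h0
    exact one_ne_zero h1
  have hl2 : ∀ l : ℕ, l.Prime → l ∣ 2 → l = 2 := fun l hl h =>
    (Nat.prime_dvd_prime_iff_eq hl Nat.prime_two).1 h
  have hirr : Irreducible (base 2 (1 : k) (-1)) := Pool.Agent.X261.MB.fG_ex_irr hr ho
  refine ⟨one_lt_two, IsPrimitiveRoot.neg_one 7 (by norm_num), hirr,
    PerfectField.separable_of_irreducible hirr, ?_, X_ne_zero, ?_,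
    Pool.Agent.X261.MB.PG_irr hr h5, ?_, ?_⟩
  · refine ⟨C (1 / 2), -C (1 / 2), ?_⟩
    have h3 : (C (1 / 2) : k[X]) * 2 = 1 := by
      have : (2 : k[X]) = C 2 := (map_ofNat C 2).symm
      rw [this, ← C_mul, one_div, inv_mul_cancel₀ h2, C_1]
    linear_combination h3
  · intro Q hQ hd
    obtain ⟨u, hu⟩ := (hQ.associated_of_dvd irreducible_X hd).symm
    obtain ⟨c, hc, hc'⟩ := isUnit_iff.1 u.isUnit
    rw [← hu, mul_comp, X_comp, ← hc', C_comp, irreducible_mul_isUnit (isUnit_C.2 hc)]
    exact hirr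
  · intro v hv
    have h6 : (prm 2 (1 : k) (-1) (X + 2) X).eval 0 = 16 := Pool.Agent.X261.MB.PG_zero
    have h8 : (prm 2 (1 : k) (-1) (X + 2) X).leadingCoeff = -1 := Pool.Agent.X261.MB.PG_lc
    rw [h6, h8] at hv
    refine Pool.Agent.X261.MB.not_cube7 hr h3 v ?_
    linear_combination hv - 2 * h7
  · intro l hl hd v hv
    rw [hl2 l hl hd] at hv
    have h6 : (prm 2 (1 : k) (-1) (X + 2) X).eval (-1) = 2 := Pool.Agent.X261.MB.PG_gamma
    have h8 : (prm 2 (1 : k) (-1) (X + 2) X).leadingCoeff = -1 := Pool.Agent.X261.MB.PG_lc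
    rw [h6, h8] at hv
    refine Pool.Agent.X261.MS.not_sq7 hr ho v ?_
    linear_combination (-1) * hv + h7

/-- **Kummer layers.** Let `p` be a prime number, `q = p ^ (s + 1)`.

1. Let `k` be a field which contains the `q`-th roots of unity, with `-1` a square if `p = 2`, `K = k(t)`,
`kb` a separable closure of `k` and `F = kb(t)`. Let `f` of degree `n`, `b`, `P` and the `m + 1`
polynomials `g_i` be as in `IsSplitPrime`, so `b ^ n (f(x / b) - t) = P + ∏ g_i`, and `D = b P ^ j` with
`q ∣ n j + 1`. Then for all `e` and `N = p ^ e`, for the curve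
`w ^ q = D(t ^ N) ^ n (f(x / D(t ^ N)) - t ^ N)` over `K` with the Jacobian `J` we have
`Ш(J / K)[p ^ ∞] = 0`, the Tate conjecture at `p` holds over `k` for the surface of this equation, and
there is a basis of `J(K)` at `p` with `m (q - 1)` elements, so the rank of `J(K)` is `m (q - 1)`.

2. If `p` does not divide `2 m` and `a`, `b` are as in `IsGoodPair`, then 1. holds with
`f = x ^ (2 m) + α x ^ m + γ`, `P = a ^ (2 m) + α a ^ m b ^ m + b ^ (2 m) (γ - t)`, `g_i = x - ξ ^ i a`,
`i < m`, and `g_m = x ^ m + a ^ m + α b ^ m`.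

3. For example over the fields with `7 ^ r` elements, `r` prime to `30`, `p = 3`, `m = 2`, `α = 1`,
`γ = -1`, `a = t + 2` and `b = t`. -/
theorem result (p s : ℕ) (hp : p.Prime) :
    (∀ (k : Type) [Field k] (ζ : k), IsPrimitiveRoot ζ (p ^ (s + 1)) → (p = 2 → IsSquare (-1 : k)) →
      ∀ (m : ℕ) (f b P : k[X]) (g : Fin (m + 1) → k[X][X]), IsSplitPrime p f b P g →
      ∀ j : ℕ, p ^ (s + 1) ∣ f.natDegree * j + 1 →
      ∀ (kb K F : Type) [Field kb] [Algebra k kb] [Field K] [Algebra k[X] K]
        [IsFractionRing k[X] K] [Field F] [Algebra kb[X] F] [IsFractionRing kb[X] F] [Algebra K F],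
        IsTower k kb K F → ∀ e : ℕ,
          Holds p (p ^ (s + 1)) m k kb F (kummerTwist K f (b * P ^ j) (p ^ e))) ∧
    (∀ (k : Type) [Field k] (m : ℕ) (α γ ξ : k) (a b : k[X]), IsGoodPair p m α γ ξ a b →
      p.Coprime (2 * m) → IsSplitPrime p (base m α γ) b (prm m α γ a b) (fac m α ξ a b)) ∧
    (∀ (k : Type) [Field k] [Finite k] (r : ℕ), Nat.card k = 7 ^ r → r.Coprime 30 →
      IsGoodPair 3 2 (1 : k) (-1) (-1) (X + 2) X) := by
  refine ⟨?_, ?_, ?_⟩
  · intro k _ ζ hζ h4 m f b P g h j hj kb K F _ _ _ _ _ _ _ _ _ hT e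
    have h1 := Pool.Agent.X261.MB.layB hT hp hζ h4 h.monic h.irreducible h.separable h.coprime
      h.ne_zero h.not_dvd h.inert h.prime h.not_pow h.fac_monic h.fac_coprime h.eq
      h.fac_irreducible h.distinct hj e
    have h2 : expand k (p ^ e) b * (expand k (p ^ e) P) ^ j = expand k (p ^ e) (b * P ^ j) := by
      rw [map_mul, map_pow]
    rw [h2] at h1
    exact holds_of h1
  · intro k _ m α γ ξ a b h hcop
    exact split_of hcop h
  · intro k _ _ r hr h30
    exact good7 hr h30

end Pool.Agent.Results.MP_1ad228_nt.KummerLayersSplitPrimes
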