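import Pool.Agent.X261.MB.Ex

/-!
Twists of superelliptic curves over `k(t)` whose Jacobian has rank `m (q - 1)` and trivial `p`-primary part
of the Tate-Shafarevich group, with points which have poles. The definitions of the Jacobian, of the
statement of the Tate conjecture and of the triviality of the Tate-Shafarevich group are in
`Pool.Agent.Y160.SL.Jac`, `IsBasisAt` is in `Pool.Agent.Y160.SL.Fam`.
-/

set_option autoImplicit false

open Polynomial IsDedekindDomain
open scoped Classical

namespace Pool.Agent.Results.MP_1ad228_nt.SectionsWithInertPoles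

open Pool.Agent.TH115.GD (IsTower)
open Pool.Agent.Y160.SL (Jac TateAt ShaTriv IsBasisAt)

section defs

variable {k : Type} [Field k]

/-- The polynomial `f` in `x` over `k[t]` defines a smooth, absolutely irreducible affine plane curve
whose coordinate ring `R = k[t, x] / (f)` has no units besides the constants and no ideal classes of
order `p` (if the `p`-th power of an ideal is principal, the ideal is principal); `f` is monic in `x`, of
degree prime to `p`, and its derivative with respect to `x` is not zero. -/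
structure IsBranchCurve (p : ℕ) (f : k[X][X]) : Prop where
  monic : f.Monic
  coprime : p.Coprime f.natDegree
  irreducible : ∀ (k' : Type) [Field k'] [Algebra k k'],
    Irreducible (f.map (mapRingHom (algebraMap k k')))
  derivative_ne_zero : derivative f ≠ 0
  smooth : Ideal.span {f, derivative f, f.sum fun i a => C (derivative a) * X ^ i} = ⊤
  dedekind : IsDedekindDomain (AdjoinRoot f)
  ideals : ∀ I : Ideal (AdjoinRoot f), (I ^ p).IsPrincipal → I.IsPrincipal
  units : ∀ u : (AdjoinRoot f)ˣ, ∃ c : k, (u : AdjoinRoot f) = algebraMap k (AdjoinRoot f) c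

/-- All primes dividing `b` are inert in the curve `f(x, t) = 0`, the prime `P` does not divide `b`, and
`b ^ n f(x / b, t) - P` is the product of the monic polynomials `g_i`, which are irreducible and different
modulo `P`, over the field `k[t] / (P)`; here `n` is the degree of `f` in `x`. -/
structure IsSplitPrime (f : k[X][X]) (b : k[X]) {r : ℕ} (g : Fin r → k[X][X]) (P : k[X]) :
    Prop where
  ne_zero : b ≠ 0
  inert : ∀ Q : k[X], Irreducible Q → Q ∣ b → Irreducible (f.map (AdjoinRoot.mk Q))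
  prime : Irreducible P
  not_dvd : ¬ P ∣ b
  eq : f.scaleRoots b = C P + ∏ i, g i
  monic : ∀ i, (g i).Monic
  irreducible : ∀ i, Irreducible ((g i).map (AdjoinRoot.mk P))
  distinct : ∀ i i', i ≠ i' → (g i).map (AdjoinRoot.mk P) ≠ (g i').map (AdjoinRoot.mk P)

/-- The polynomial `D ^ n f(x / D, t)` in `x` over `K = k(t)`, where `n` is the degree of `f` in `x`. The
surface `w ^ q = D ^ n f(x / D, t)` is the twist of `w ^ q = f(x, t)` by `D(t) ^ n`. -/
noncomputable def twist (K : Type) [Field K] [Algebra k[X] K] (f : k[X][X]) (D : k[X]) : K[X] :=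
  (f.scaleRoots D).map (algebraMap k[X] K)

/-- The conclusions: the Tate conjecture at `p` for the surface `w ^ q = G(x)` over the projective line,
`Ш(J / K)[p ^ ∞] = 0` for the Jacobian `J` of its generic fibre over `K`, and a basis of `J(K)` at `p`
with `r (q - 1)` elements. -/
def Holds (p q r : ℕ) (k k' F : Type) {K : Type} [Field k] [Field k'] [Field K] [Field F]
    [Algebra K F] [Algebra k[X] K] [IsFractionRing k[X] K] [Algebra k'[X] F]
    [IsFractionRing k'[X] F] (G : K[X]) : Prop :=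
  TateAt (F := F) p q k' G ∧ ShaTriv p q k[X] G ∧
    ∃ b : Fin (r * (q - 1)) → Jac q G K, IsBasisAt p b

/-- The curve `x ^ (2 m) + α x ^ m = t`. -/
noncomputable def curve (m : ℕ) (α : k) : k[X][X] := X ^ (2 * m) + C (C α) * X ^ m - C X

/-- The polynomial `P = a ^ (2 m) + α a ^ m b ^ m - b ^ (2 m) t`. -/
noncomputable def prm (m : ℕ) (α : k) (a b : k[X]) : k[X] :=
  a ^ (2 * m) + C α * (a ^ m * b ^ m) - b ^ (2 * m) * X

/-- The polynomials `x - ξ ^ i a` for `i < m` and `x ^ m + a ^ m + α b ^ m`. -/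
noncomputable def fac (m : ℕ) (α ξ : k) (a b : k[X]) (i : Fin (m + 1)) : k[X][X] :=
  if (i : ℕ) < m then X - C (C (ξ ^ (i : ℕ)) * a) else X ^ m + C (a ^ m + C α * b ^ m)

/-- Conditions for `a` and `b` in `k[t]`: `P` is irreducible, and conditions for the values of `P` at `0`,
and of the primes `Q` dividing `b` at `0` and at `-α ^ 2 / 4`. -/
structure IsGoodPair (m : ℕ) (α ξ : k) (a b : k[X]) : Prop where
  one_lt : 1 < m
  two : (2 : k) ≠ 0
  root : IsPrimitiveRoot ξ m
  alpha : α ≠ 0
  coprime : IsCoprime a b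
  ne_zero : b ≠ 0
  irreducible : Irreducible (prm m α a b)
  not_pow : ∀ l : ℕ, l.Prime → l ∣ m → ∀ v : k,
    (prm m α a b).eval 0 ≠ v ^ l * (prm m α a b).leadingCoeff
  inert_pow : ∀ Q : k[X], Irreducible Q → Q ∣ b → ∀ l : ℕ, l.Prime → l ∣ m → ∀ v : k,
    Q.eval 0 ≠ v ^ l * Q.leadingCoeff
  inert_sq : ∀ Q : k[X], Irreducible Q → Q ∣ b → ∀ v : k,
    (-1) ^ Q.natDegree * Q.eval (-(α ^ 2 / 4)) ≠ v ^ 2 * Q.leadingCoeff

end defs

theorem holds_of {k k' K F : Type} [Field k] [Field k'] [Field K] [Field F] [Algebra K F]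
    [Algebra k[X] K] [IsFractionRing k[X] K] [Algebra k'[X] F] [IsFractionRing k'[X] F]
    {p q r : ℕ} {G : K[X]} (h : Pool.Agent.Y160.SL.Concl p q r k k' F G) :
    Holds p q r k k' F G := by
  obtain ⟨D, hD1, hD2⟩ := h.basis
  let e : Fin (r * (q - 1)) ≃ Fin r × Fin (q - 1) := finProdFinEquiv.symm
  refine ⟨h.tate, h.sha, fun i => D (e i), hD1.comp _ e.injective, fun n x => ?_⟩
  obtain ⟨y, hy⟩ := hD2 n x
  refine ⟨y, ?_⟩
  have e1 : Set.range (fun i => D (e i)) = Set.range D := e.surjective.range_comp D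
  rw [e1]
  exact hy

theorem ring_of {k : Type} [Field k] {p : ℕ} (hp : p.Prime) {f : k[X][X]}
    (h : IsBranchCurve p f) : ∃ _ : IsDedekindDomain (AdjoinRoot f),
      Pool.Agent.Y160.T7.PropT p k (AdjoinRoot f) :=
  ⟨h.dedekind, by
    let := h.dedekind
    exact Pool.Agent.X261.BC.propT_of_class hp.pos
      (Pool.Agent.X261.BC.class_of_ideal h.ideals) h.units⟩

theorem curve_eq {k : Type} [Field k] (m : ℕ) (α : k) :
    curve m α = Pool.Agent.X261.TS.graph (Pool.Agent.X261.MS.f0 m α) := by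
  unfold curve Pool.Agent.X261.TS.graph Pool.Agent.X261.MS.f0
  rw [Polynomial.map_add, Polynomial.map_mul, Polynomial.map_pow, Polynomial.map_pow, map_X, map_C]

theorem branch_of {k : Type} [Field k] {p m : ℕ} (hcop : p.Coprime (2 * m)) {α ξ : k} {a b : k[X]}
    (h : IsGoodPair m α ξ a b) : IsBranchCurve p (curve m α) := by
  have hm : 0 < m := by
    have := h.one_lt
    omega
  rw [curve_eq]
  obtain ⟨r1, r2, r3⟩ := Pool.Agent.X261.MS.graph_ring p (Pool.Agent.X261.MS.f0 m α)
  refine ⟨Pool.Agent.X261.TS.monic_graph (Pool.Agent.X261.MS.f0_monic hm)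
    (by rw [Pool.Agent.X261.MS.f0_deg hm]; omega), ?_, ?_, ?_, ?_, r1, r2, r3⟩
  · rw [Pool.Agent.X261.TS.natDegree_graph, Pool.Agent.X261.MS.f0_deg hm]
    exact hcop
  · intro k' _ _
    rw [Pool.Agent.X261.MS.graph_map]
    exact Pool.Agent.X261.MS.graph_irr _
  · have h1 : derivative (Pool.Agent.X261.TS.graph (Pool.Agent.X261.MS.f0 m α)) =
        (derivative (Pool.Agent.X261.MS.f0 m α)).map C := by
      unfold Pool.Agent.X261.TS.graph
      rw [derivative_sub, derivative_C, sub_zero, derivative_map]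
    rw [h1, Polynomial.map_ne_zero_iff C_injective]
    have : NeZero m := ⟨hm.ne'⟩
    exact Pool.Agent.X261.MS.f0_der h.one_lt (h.root.neZero').out h.alpha
  · exact Pool.Agent.X261.MS.graph_smooth _

theorem split_of {k : Type} [Field k] {m : ℕ} {α ξ : k} {a b : k[X]}
    (h : IsGoodPair m α ξ a b) :
    IsSplitPrime (curve m α) b (fac m α ξ a b) (prm m α a b) := by
  have hm : 0 < m := by
    have := h.one_lt
    omega
  have hP : Irreducible (Pool.Agent.X261.MB.PB m α a b) := h.irreducible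
  have h0 : (Pool.Agent.X261.MB.PB m α a b).eval 0 ≠ 0 := by
    intro h1
    obtain ⟨l, hl, hlm⟩ := Nat.exists_prime_and_dvd h.one_lt.ne'
    refine h.not_pow l hl hlm 0 ?_
    rw [zero_pow hl.ne_zero, zero_mul]
    exact h1
  rw [curve_eq]
  exact ⟨h.ne_zero, fun Q hQ hQb => Pool.Agent.X261.MB.inert hm h.root h.two hQ
      (h.inert_sq Q hQ hQb) (h.inert_pow Q hQ hQb), hP,
    (Pool.Agent.X261.MB.PB_dvd h.coprime hP hm h0).1, Pool.Agent.X261.MB.fac_B hm h.root,
    fun i => Pool.Agent.X261.MB.gB_monic hm i,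
    fun i => Pool.Agent.X261.MB.gB_irr hm h.root h.coprime hP h.not_pow h0 i,
    fun i i' hne => Pool.Agent.X261.MB.gB_ne h.one_lt h.root h.coprime hP h0 hne⟩

theorem good7 {k : Type} [Field k] [Finite k] {r : ℕ} (hr : Nat.card k = 7 ^ r)
    (h10 : r.Coprime 10) : IsGoodPair 2 (1 : k) (-1) (X + 1) (X - 1) := by
  have := Pool.Agent.X261.MS.charP7 hr
  have h7 : (7 : k) = 0 := by
    have := CharP.cast_eq_zero k 7
    exact_mod_cast this
  have ho : Odd r := Nat.coprime_two_right.1 (Nat.Coprime.coprime_dvd_right (by norm_num) h10)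
  have hns := Pool.Agent.X261.MS.not_sq7 hr ho
  have h2 : (2 : k) ≠ 0 := by
    intro h0
    have h1 : (1 : k) = 0 := by linear_combination h7 - 3 * h0
    exact one_ne_zero h1
  have h4 : (4 : k) ≠ 0 := by
    intro h0
    have h1 : (1 : k) = 0 := by linear_combination 2 * h0 - h7
    exact one_ne_zero h1
  have hl2 : ∀ l : ℕ, l.Prime → l ∣ 2 → l = 2 := fun l hl h =>
    (Nat.prime_dvd_prime_iff_eq hl Nat.prime_two).1 h
  have hQ : ∀ Q : k[X], Irreducible Q → Q ∣ X - 1 → ∃ c : k, c ≠ 0 ∧ Q = C c * (X - C 1) := by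
    intro Q hQ hd
    rw [← C_1] at hd
    obtain ⟨u, hu⟩ := (hQ.associated_of_dvd (irreducible_X_sub_C 1) hd).symm
    obtain ⟨c, hc, hc'⟩ := isUnit_iff.1 u.isUnit
    refine ⟨c, hc.ne_zero, ?_⟩
    rw [← hu, ← hc', mul_comm]
  refine ⟨one_lt_two, h2, IsPrimitiveRoot.neg_one 7 (by norm_num), one_ne_zero, ?_, ?_,
    Pool.Agent.X261.MB.PE_irr hr h10, ?_, ?_, ?_⟩
  · refine ⟨C (1 / 2), -C (1 / 2), ?_⟩
    have h3 : (C (1 / 2) : k[X]) * 2 = 1 := by
      have : (2 : k[X]) = C 2 := (map_ofNat C 2).symm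
      rw [this, ← C_mul, one_div, inv_mul_cancel₀ h2, C_1]
    linear_combination h3
  · rw [← C_1]
    exact X_sub_C_ne_zero 1
  · intro l hl hd v hv
    rw [hl2 l hl hd] at hv
    have h1 := Pool.Agent.X261.MB.PE_zero (k := k)
    have h3 := Pool.Agent.X261.MB.PE_lc (k := k)
    have h5 : (2 : k) = v ^ 2 * -1 := h1.symm.trans (hv.trans (congrArg _ h3))
    refine hns v ?_
    linear_combination h7 - h5
  · intro Q hQi hQd l hl hd v hv
    rw [hl2 l hl hd] at hv
    obtain ⟨c, hc, rfl⟩ := hQ Q hQi hQd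
    rw [leadingCoeff_mul, leadingCoeff_C, leadingCoeff_X_sub_C, mul_one, eval_mul, eval_C, eval_sub,
      eval_X, eval_C] at hv
    have h5 : (-1 : k) = v ^ 2 := by
      apply mul_left_cancel₀ hc
      linear_combination hv
    refine hns (3 * v) ?_
    linear_combination 2 * h7 + 9 * h5
  · intro Q hQi hQd v hv
    obtain ⟨c, hc, rfl⟩ := hQ Q hQi hQd
    rw [leadingCoeff_mul, leadingCoeff_C, leadingCoeff_X_sub_C, mul_one, eval_mul, eval_C, eval_sub,
      eval_X, eval_C, natDegree_C_mul hc, natDegree_X_sub_C, pow_one, one_pow] at hv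
    have h5 : (1 / 4 + 1 : k) = v ^ 2 := by
      apply mul_left_cancel₀ hc
      linear_combination hv
    refine hns (2 * v) ?_
    have h6 : (1 / 4 : k) * 4 = 1 := by field_simp
    linear_combination 4 * h5 - h6

/-- **Points with inert poles.** Let `p` be a prime number, `q = p ^ (s + 1)`.

1. Let `k` be a field which contains the `q`-th roots of unity, `K = k(t)`, `kb` a separable closure of
`k` and `F = kb(t)`. Let `f` be a branch curve of degree `n` in `x` as in `IsBranchCurve`, `b`, `P` and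
the `m + 1` polynomials `g_i` as in `IsSplitPrime`, so `b ^ n f(x / b, t) = P + ∏ g_i`, and `D = b P ^ j`
with `q ∣ n j + 1`. Then for the curve `w ^ q = D ^ n f(x / D, t)` over `K` with the Jacobian `J` we have
`Ш(J / K)[p ^ ∞] = 0`, the Tate conjecture at `p` holds over `k` for the surface of this equation, and
there is a basis of `J(K)` at `p` with `m (q - 1)` elements, so the rank of `J(K)` is `m (q - 1)`.

2. If `p` does not divide `2 m` and `a`, `b` are as in `IsGoodPair`, then 1. holds with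
`f = x ^ (2 m) + α x ^ m - t`, `P = a ^ (2 m) + α a ^ m b ^ m - b ^ (2 m) t`, `g_i = x - ξ ^ i a`, `i < m`,
and `g_m = x ^ m + a ^ m + α b ^ m`; the points have `x = D ξ ^ i a / b`.

3. For example over the fields with `7 ^ r` elements, `r` prime to `10`, `m = 2`, `α = 1`, `a = t + 1` and
`b = t - 1`. -/
theorem result (p s : ℕ) (hp : p.Prime) :
    (∀ (k : Type) [Field k] (ζ : k), IsPrimitiveRoot ζ (p ^ (s + 1)) →
      ∀ f : k[X][X], IsBranchCurve p f →
      ∀ (m : ℕ) (b : k[X]) (g : Fin (m + 1) → k[X][X]) (P : k[X]), IsSplitPrime f b g P →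
      ∀ j : ℕ, p ^ (s + 1) ∣ f.natDegree * j + 1 →
      ∀ (kb K F : Type) [Field kb] [Algebra k kb] [Field K] [Algebra k[X] K]
        [IsFractionRing k[X] K] [Field F] [Algebra kb[X] F] [IsFractionRing kb[X] F] [Algebra K F],
        IsTower k kb K F → Holds p (p ^ (s + 1)) m k kb F (twist K f (b * P ^ j))) ∧
    (∀ (k : Type) [Field k] (m : ℕ) (α ξ : k) (a b : k[X]), IsGoodPair m α ξ a b →
      p.Coprime (2 * m) → IsBranchCurve p (curve m α) ∧
        IsSplitPrime (curve m α) b (fac m α ξ a b) (prm m α a b)) ∧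
    (∀ (k : Type) [Field k] [Finite k] (r : ℕ), Nat.card k = 7 ^ r → r.Coprime 10 →
      IsGoodPair 2 (1 : k) (-1) (X + 1) (X - 1)) := by
  refine ⟨?_, ?_, ?_⟩
  · intro k _ ζ hζ f h m b g P hS j hj kb K F _ _ _ _ _ _ _ _ _ hT
    exact holds_of (Pool.Agent.X261.MB.mainB hT hp hζ h.monic h.coprime (h.irreducible kb)
      h.derivative_ne_zero h.smooth (ring_of hp h) hS.ne_zero hS.not_dvd hS.inert hS.prime hS.monic
      hS.eq hS.irreducible hS.distinct hj)
  · intro k _ m α ξ a b h hcop
    exact ⟨branch_of hcop h, split_of h⟩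
  · intro k _ _ r hr h10
    exact good7 hr h10

end Pool.Agent.Results.MP_1ad228_nt.SectionsWithInertPoles
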